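import Mathlib

set_option autoImplicit false

/-!
# MP_222653_nt: almost all bases have many exponents of the kind asked for

Good a m: a^m - 1 has a primitive prime factor p with p^2 not dividing a^m - 1.

Idea. If p is prime and p^2 does not divide a^(p-1) - 1, then the order m of a modulo p is good
for a. So it is enough to bound, for one prime p, the number of bases a up to X with
a^(p-1) = 1 modulo p^2 (X is tiny compared with p). Write such an a, having a prime factor at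
least z, as a = l * b. For fixed b the primes l up to X/b that occur have all the same value of
l^(p-1) modulo p^2; products of u of them are distinct, lie below p^2 and in one class of
(p-1)-th powers, so there are at most p - 1 of them (Lenstra). This bounds the number of l by
6 log p sqrt(X/b). Summation over b and averaging over the primes p up to N, the bound of
sqrt N for the number of primes up to N with a given order, Rankin's bound for numbers without
prime factor at least z, and a grid of values of N finish the proof.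
-/

open Finset

namespace Pool.Agent.Results.MP_222653_nt.AlmostAllBases

/-- Solutions of `x^(p-1) = g` modulo `p^2`: at most `p - 1` of them below `p^2`. -/
lemma card_sol (p : ℕ) (hp : p.Prime) (hp2 : p ≠ 2) (g : ZMod (p ^ 2)) (S : Finset ℕ)
    (hS : ∀ x ∈ S, x < p ^ 2 ∧ Nat.Coprime x (p ^ 2) ∧ ((x : ℕ) : ZMod (p ^ 2)) ^ (p - 1) = g) :
    S.card ≤ p - 1 := by
  classical
  have : NeZero (p ^ 2) := ⟨pow_ne_zero _ hp.ne_zero⟩
  have : IsCyclic (ZMod (p ^ 2))ˣ := ZMod.isCyclic_units_of_prime_pow p hp hp2 2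
  have hp1 : 0 < p - 1 := by have := hp.two_le; omega
  rcases S.eq_empty_or_nonempty with h | ⟨x0, hx0⟩
  · simp [h]
  · obtain ⟨h0, h0c, h0g⟩ := hS x0 hx0
    let f : ℕ → (ZMod (p ^ 2))ˣ := fun x =>
      if h : Nat.Coprime x (p ^ 2) then ZMod.unitOfCoprime x h * (ZMod.unitOfCoprime x0 h0c)⁻¹
      else 1
    have key := IsCyclic.card_pow_eq_one_le (α := (ZMod (p ^ 2))ˣ) hp1
    refine le_trans (Finset.card_le_card_of_injOn f ?_ ?_) key
    · intro x hx
      obtain ⟨hx1, hxc, hxg⟩ := hS x hx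
      simp only [Finset.coe_filter, Set.mem_ofPred_eq, Finset.mem_univ, true_and]
      simp only [f, dif_pos hxc]
      rw [mul_pow, inv_pow, mul_inv_eq_one]
      apply Units.ext
      push_cast
      simp only [ZMod.coe_unitOfCoprime]
      rw [hxg, h0g]
    · intro x hx y hy hxy
      obtain ⟨hx1, hxc, hxg⟩ := hS x hx
      obtain ⟨hy1, hyc, hyg⟩ := hS y hy
      simp only [f, dif_pos hxc, dif_pos hyc] at hxy
      have h1 := mul_right_cancel hxy
      have h2 : ((x : ℕ) : ZMod (p ^ 2)) = ((y : ℕ) : ZMod (p ^ 2)) := by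
        have := congrArg (fun u : (ZMod (p ^ 2))ˣ => (u : ZMod (p ^ 2))) h1
        simpa using this
      rw [ZMod.natCast_eq_natCast_iff] at h2
      exact Nat.ModEq.eq_of_lt_of_lt h2 hx1 hy1

/-- Products of multisets of primes determine the multiset. -/
lemma prod_inj (s t : Multiset ℕ) (hs : ∀ x ∈ s, x.Prime) (ht : ∀ x ∈ t, x.Prime)
    (h : s.prod = t.prod) : s = t := by
  revert hs ht h
  refine Quotient.inductionOn₂ s t ?_
  intro l₁ l₂ hs ht h
  have h1 : l₁.prod = l₂.prod := by simpa using h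
  have a1 := Nat.primeFactorsList_unique (n := l₂.prod) (l := l₁) h1 (by simpa using hs)
  have a2 := Nat.primeFactorsList_unique (n := l₂.prod) (l := l₂) rfl (by simpa using ht)
  exact Quotient.sound (a1.trans a2.symm)

lemma card_class (p : ℕ) (hp : p.Prime) (hp2 : p ≠ 2) (g : ZMod (p ^ 2)) (L : Finset ℕ)
    (Z u : ℕ) (hZ : Z < p) (hZu : Z ^ u < p ^ 2)
    (hL : ∀ l ∈ L, l.Prime ∧ l ≤ Z ∧ ((l : ℕ) : ZMod (p ^ 2)) ^ (p - 1) = g) :
    (L.card : ℝ) ^ u ≤ (u : ℝ) ^ u * p := by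
  classical
  have hcard : (L.sym u).card = L.card.multichoose u := by
    have h1 := Sym.card_sym_eq_multichoose (L : Type) u
    rw [Fintype.card_coe] at h1
    rw [← h1]
    rw [← Finset.card_univ]
    symm
    refine Finset.card_bij (fun m _ => m.map Subtype.val) ?_ ?_ ?_
    · intro m _
      rw [Finset.mem_sym_iff]
      intro a ha
      rw [Sym.mem_map] at ha
      obtain ⟨b, hb, rfl⟩ := ha
      exact b.2
    · intro m _ m' _ h
      exact Sym.map_injective Subtype.val_injective u h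
    · intro m hm
      rw [Finset.mem_sym_iff] at hm
      refine ⟨m.attach.map (fun x => ⟨x.1, hm _ x.2⟩), Finset.mem_univ _, ?_⟩
      rw [Sym.map_map]
      exact Sym.attach_map_coe m
  have hle : (L.sym u).card ≤ p - 1 := by
    have h2 : ((L.sym u).image (fun m : Sym ℕ u => (m : Multiset ℕ).prod)).card ≤ p - 1 := by
      apply card_sol p hp hp2 (g ^ u)
      intro x hx
      rw [Finset.mem_image] at hx
      obtain ⟨m, hm, rfl⟩ := hx
      rw [Finset.mem_sym_iff] at hm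
      have hmem : ∀ a ∈ (m : Multiset ℕ), a ∈ L := fun a ha => hm a ha
      have hcm : Multiset.card (m : Multiset ℕ) = u := m.2
      refine ⟨?_, ?_, ?_⟩
      · refine lt_of_le_of_lt ?_ hZu
        have h3 := Multiset.prod_le_pow_card (m : Multiset ℕ) Z
          (fun a ha => (hL a (hmem a ha)).2.1)
        rwa [hcm] at h3
      · apply Nat.Coprime.pow_right
        rw [Nat.coprime_comm]
        rw [Nat.Prime.coprime_iff_not_dvd hp]
        intro hdiv
        obtain ⟨a, ha, hpa⟩ := hp.prime.exists_mem_multiset_dvd hdiv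
        have h3 := hL a (hmem a ha)
        have h4 : p = a := (Nat.prime_dvd_prime_iff_eq hp h3.1).1 hpa
        omega
      · rw [Nat.cast_multiset_prod]
        rw [← Multiset.prod_map_pow]
        have h5 : Multiset.map (fun i : ℕ => ((i : ℕ) : ZMod (p ^ 2)) ^ (p - 1)) (m : Multiset ℕ)
            = Multiset.map (fun _ => g) (m : Multiset ℕ) := by
          apply Multiset.map_congr rfl
          intro a ha
          exact (hL a (hmem a ha)).2.2
        rw [h5]
        simp [hcm]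
    rw [Finset.card_image_of_injOn] at h2
    · exact h2
    · intro m hm m' hm' h
      rw [Finset.mem_coe, Finset.mem_sym_iff] at hm hm'
      apply Sym.coe_injective
      exact prod_inj _ _ (fun x hx => (hL x (hm x hx)).1) (fun x hx => (hL x (hm' x hx)).1) h
  rcases Nat.eq_zero_or_pos u with hu | hu
  · subst hu
    simp
    have := hp.two_le
    omega
  rw [hcard, Nat.multichoose_eq] at hle
  have h6 := Nat.pow_le_choose (α := ℝ) u (L.card + u - 1)
  have h7 : L.card + u - 1 + 1 - u = L.card := by omega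
  rw [h7] at h6
  rw [div_le_iff₀ (by exact_mod_cast Nat.factorial_pos u)] at h6
  have h8 : ((L.card + u - 1).choose u : ℝ) ≤ p := by
    have : (L.card + u - 1).choose u ≤ p := by omega
    exact_mod_cast this
  have h9 : ((Nat.factorial u : ℕ) : ℝ) ≤ (u : ℝ) ^ u := by
    exact_mod_cast Nat.factorial_le_pow u
  calc (L.card : ℝ) ^ u ≤ ((L.card + u - 1).choose u : ℝ) * (Nat.factorial u : ℕ) := by
        exact_mod_cast h6
    _ ≤ p * (u : ℝ) ^ u := by
        apply mul_le_mul h8 h9 (by positivity) (by positivity)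
    _ = (u : ℝ) ^ u * p := by ring

lemma card_class_real (X Z p : ℕ) (hp : p.Prime) (hX : 2 ≤ X) (hZX : Z ≤ X) (hXp : X < p)
    (hlog : Real.log X ^ 2 ≤ Real.log p) (g : ZMod (p ^ 2)) (L : Finset ℕ)
    (hL : ∀ l ∈ L, l.Prime ∧ l ≤ Z ∧ ((l : ℕ) : ZMod (p ^ 2)) ^ (p - 1) = g) :
    (L.card : ℝ) ≤ 6 * Real.log p * Real.sqrt Z := by
  have hp2 : p ≠ 2 := by omega
  have hpr : (1 : ℝ) < p := by exact_mod_cast hp.one_lt
  have hΛ0 : 0 < Real.log p := Real.log_pos hpr
  rcases L.eq_empty_or_nonempty with h | ⟨l, hl⟩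
  · simp only [h, Finset.card_empty, Nat.cast_zero]
    positivity
  · have hZ2 : 2 ≤ Z := le_trans (hL l hl).1.two_le (hL l hl).2.1
    have hZr : (2 : ℝ) ≤ Z := by exact_mod_cast hZ2
    have hZ0 : (0 : ℝ) < Z := by linarith
    have hXr : (Z : ℝ) ≤ X := by exact_mod_cast hZX
    have hpX : (X : ℝ) < p := by exact_mod_cast hXp
    set lam : ℝ := Real.log Z with hlam
    set Lam : ℝ := Real.log p with hLam
    have hl2 : Real.log 2 ≤ lam := Real.log_le_log (by norm_num) hZr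
    have hlog2 : (0.69 : ℝ) < Real.log 2 := by have := Real.log_two_gt_d9; linarith
    have hlam0 : 0 < lam := by linarith
    have hlX : lam ≤ Real.log X := Real.log_le_log hZ0 hXr
    have hlL : lam < Lam := Real.log_lt_log hZ0 (by linarith)
    have hsq : lam ^ 2 ≤ Lam := le_trans (pow_le_pow_left₀ hlam0.le hlX 2) hlog
    set c : ℕ := ⌈2 * Lam / lam⌉₊ with hc
    have hxpos : 1 < 2 * Lam / lam := by
      rw [lt_div_iff₀ hlam0]; linarith
    have hc2 : 2 ≤ c := by
      have : 1 < c := by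
        rw [hc, Nat.lt_ceil]
        exact_mod_cast hxpos
      omega
    obtain ⟨u, hu⟩ : ∃ u, c = u + 1 := ⟨c - 1, by omega⟩
    have hu1 : 1 ≤ u := by omega
    have hult : (u : ℝ) < 2 * Lam / lam := by
      rw [← Nat.lt_ceil]
      omega
    have huge : 2 * Lam / lam ≤ u + 1 := by
      have h1 := Nat.le_ceil (2 * Lam / lam)
      rw [← hc, hu] at h1
      exact_mod_cast h1
    have hu0 : (0 : ℝ) < u := by exact_mod_cast hu1
    have hZu : Z ^ u < p ^ 2 := by
      have h1 : (Z : ℝ) ^ u < (p : ℝ) ^ 2 := by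
        rw [← Real.log_lt_log_iff (by positivity) (by positivity), Real.log_pow, Real.log_pow]
        rw [lt_div_iff₀ hlam0] at hult
        exact_mod_cast hult
      exact_mod_cast h1
    have key := card_class p hp hp2 g L Z u (by omega) hZu hL
    have hLc : (0 : ℝ) < L.card := by
      exact_mod_cast Finset.card_pos.2 ⟨l, hl⟩
    have h1 : (u : ℝ) * Real.log L.card ≤ u * Real.log u + Lam := by
      have h2 := Real.log_le_log (by positivity) key
      rw [Real.log_pow, Real.log_mul (by positivity) (by positivity), Real.log_pow] at h2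
      exact h2
    have h3 : Lam ≤ u * (lam / 2 + 1 / 2) := by
      rw [div_le_iff₀ hlam0] at huge
      nlinarith
    have h4 : Real.log L.card ≤ Real.log u + (lam / 2 + 1 / 2) := by
      have : (u : ℝ) * Real.log L.card ≤ u * (Real.log u + (lam / 2 + 1 / 2)) := by nlinarith
      exact le_of_mul_le_mul_left this hu0
    have h5 : (L.card : ℝ) ≤ u * (Real.sqrt Z * Real.exp (1 / 2)) := by
      have h6 := Real.exp_le_exp.2 h4
      rw [Real.exp_log hLc, Real.exp_add, Real.exp_log hu0, Real.exp_add] at h6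
      have h7 : Real.exp (lam / 2) = Real.sqrt Z := by
        rw [Real.exp_half, hlam, Real.exp_log hZ0]
      rwa [h7] at h6
    have h8 : Real.exp (1 / 2) ≤ 2 := by
      have h9 := Real.exp_one_lt_d9
      have h10 : Real.exp (1 / 2) ^ 2 = Real.exp 1 := by
        rw [← Real.exp_nat_mul]; norm_num
      nlinarith [Real.exp_pos (1 / 2)]
    have h11 : (u : ℝ) ≤ 3 * Lam := by
      rw [lt_div_iff₀ hlam0] at hult
      nlinarith
    have hs0 := Real.sqrt_nonneg (Z : ℝ)
    calc (L.card : ℝ) ≤ u * (Real.sqrt Z * Real.exp (1 / 2)) := h5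
      _ ≤ (3 * Lam) * (Real.sqrt Z * 2) := by gcongr
      _ = 6 * Lam * Real.sqrt Z := by ring

lemma sum_inv_sqrt (B : ℕ) : ∑ b ∈ Finset.Icc 1 B, (Real.sqrt b)⁻¹ ≤ 2 * Real.sqrt B := by
  induction B with
  | zero => simp
  | succ n ih =>
    rw [Finset.sum_Icc_succ_top (by omega)]
    have h0 : (0 : ℝ) ≤ n := Nat.cast_nonneg n
    have h1 : 0 < Real.sqrt ((n + 1 : ℕ) : ℝ) := Real.sqrt_pos.2 (by push_cast; linarith)
    have h2 : Real.sqrt (n : ℝ) ≤ Real.sqrt ((n + 1 : ℕ) : ℝ) :=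
      Real.sqrt_le_sqrt (by push_cast; linarith)
    have h3 : Real.sqrt ((n + 1 : ℕ) : ℝ) ^ 2 = n + 1 := by
      rw [Real.sq_sqrt (by positivity)]; push_cast; ring
    have h4 : Real.sqrt (n : ℝ) ^ 2 = n := Real.sq_sqrt h0
    have h5 := Real.sqrt_nonneg (n : ℝ)
    have h6 : (Real.sqrt ((n + 1 : ℕ) : ℝ))⁻¹ ≤
        2 * (Real.sqrt ((n + 1 : ℕ) : ℝ) - Real.sqrt (n : ℝ)) := by
      rw [inv_le_iff_one_le_mul₀ h1]
      nlinarith
    linarith

/-- The bases up to `X` with a prime factor at least `z` for which `p` is a Wieferich prime. -/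
lemma card_bad (X z p : ℕ) (hp : p.Prime) (hX : 2 ≤ X) (hz : 1 ≤ z) (hXp : X < p)
    (hlog : Real.log X ^ 2 ≤ Real.log p) (A : Finset ℕ)
    (hA : ∀ a ∈ A, 1 ≤ a ∧ a ≤ X ∧ (∃ l : ℕ, l.Prime ∧ z ≤ l ∧ l ∣ a) ∧
      ((a : ℕ) : ZMod (p ^ 2)) ^ (p - 1) = 1) :
    (A.card : ℝ) ≤ 12 * Real.log p * (X / Real.sqrt z) := by
  classical
  set Lb : ℕ → Finset ℕ := fun b => (Finset.Icc 1 (X / b)).filter
    (fun l => l.Prime ∧ ((l * b : ℕ) : ZMod (p ^ 2)) ^ (p - 1) = 1) with hLb
  have hpr : (1 : ℝ) < p := by exact_mod_cast hp.one_lt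
  have hΛ0 : 0 < Real.log p := Real.log_pos hpr
  have hsub : A ⊆ (Finset.Icc 1 (X / z)).biUnion (fun b => (Lb b).image (fun l => l * b)) := by
    intro a ha
    obtain ⟨ha1, haX, ⟨l, hlp, hzl, hla⟩, haw⟩ := hA a ha
    obtain ⟨b, rfl⟩ := hla
    have hb : 1 ≤ b := by
      rcases Nat.eq_zero_or_pos b with h | h
      · subst h; simp at ha1
      · exact h
    rw [Finset.mem_biUnion]
    refine ⟨b, ?_, ?_⟩
    · rw [Finset.mem_Icc]
      refine ⟨hb, ?_⟩
      rw [Nat.le_div_iff_mul_le (by omega)]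
      calc b * z ≤ b * l := Nat.mul_le_mul_left _ hzl
        _ = l * b := by ring
        _ ≤ X := haX
    · rw [Finset.mem_image]
      refine ⟨l, ?_, rfl⟩
      simp only [hLb, Finset.mem_filter, Finset.mem_Icc]
      refine ⟨⟨hlp.one_lt.le, ?_⟩, hlp, haw⟩
      rw [Nat.le_div_iff_mul_le (by omega)]
      exact haX
  have hcard : ∀ b ∈ Finset.Icc 1 (X / z), ((Lb b).card : ℝ) ≤
      6 * Real.log p * Real.sqrt X * (Real.sqrt b)⁻¹ := by
    intro b hb
    rw [Finset.mem_Icc] at hb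
    have hb0 : (0 : ℝ) < b := by exact_mod_cast hb.1
    have h1 : ((Lb b).card : ℝ) ≤ 6 * Real.log p * Real.sqrt ((X / b : ℕ) : ℝ) := by
      rcases (Lb b).eq_empty_or_nonempty with h | ⟨l0, hl0⟩
      · rw [h]; simp only [Finset.card_empty, Nat.cast_zero]; positivity
      · simp only [hLb, Finset.mem_filter, Finset.mem_Icc] at hl0
        refine card_class_real X (X / b) p hp hX (Nat.div_le_self _ _) hXp hlog
          (((l0 : ℕ) : ZMod (p ^ 2)) ^ (p - 1)) (Lb b) ?_
        intro l hl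
        simp only [hLb, Finset.mem_filter, Finset.mem_Icc] at hl
        refine ⟨hl.2.1, hl.1.2, ?_⟩
        have e1 := hl.2.2
        have e0 := hl0.2.2
        push_cast at e1 e0
        rw [mul_pow] at e1 e0
        calc ((l : ℕ) : ZMod (p ^ 2)) ^ (p - 1)
            = (l : ZMod (p ^ 2)) ^ (p - 1) * ((l0 : ZMod (p ^ 2)) ^ (p - 1) *
              (b : ZMod (p ^ 2)) ^ (p - 1)) := by rw [e0, mul_one]
          _ = (l0 : ZMod (p ^ 2)) ^ (p - 1) * ((l : ZMod (p ^ 2)) ^ (p - 1) *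
              (b : ZMod (p ^ 2)) ^ (p - 1)) := by ring
          _ = (l0 : ZMod (p ^ 2)) ^ (p - 1) := by rw [e1, mul_one]
    have h2 : Real.sqrt ((X / b : ℕ) : ℝ) ≤ Real.sqrt X * (Real.sqrt b)⁻¹ := by
      rw [← Real.sqrt_inv, ← Real.sqrt_mul (by positivity)]
      apply Real.sqrt_le_sqrt
      rw [← div_eq_mul_inv]
      exact Nat.cast_div_le
    calc ((Lb b).card : ℝ) ≤ 6 * Real.log p * Real.sqrt ((X / b : ℕ) : ℝ) := h1
      _ ≤ 6 * Real.log p * (Real.sqrt X * (Real.sqrt b)⁻¹) := by gcongr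
      _ = _ := by ring
  have hzr : (0 : ℝ) < z := by exact_mod_cast hz
  have hXr : (0 : ℝ) < X := by exact_mod_cast (by omega : 0 < X)
  have h1 : (A.card : ℝ) ≤ ∑ b ∈ Finset.Icc 1 (X / z), ((Lb b).card : ℝ) := by
    have h2 := Finset.card_le_card hsub
    have h3 : ((Finset.Icc 1 (X / z)).biUnion (fun b => (Lb b).image (fun l => l * b))).card ≤
        ∑ b ∈ Finset.Icc 1 (X / z), (Lb b).card :=
      le_trans Finset.card_biUnion_le (Finset.sum_le_sum (fun b _ => Finset.card_image_le))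
    exact_mod_cast le_trans h2 h3
  calc (A.card : ℝ) ≤ ∑ b ∈ Finset.Icc 1 (X / z), ((Lb b).card : ℝ) := h1
    _ ≤ ∑ b ∈ Finset.Icc 1 (X / z), 6 * Real.log p * Real.sqrt X * (Real.sqrt b)⁻¹ :=
        Finset.sum_le_sum hcard
    _ = 6 * Real.log p * Real.sqrt X * ∑ b ∈ Finset.Icc 1 (X / z), (Real.sqrt b)⁻¹ := by
        rw [Finset.mul_sum]
    _ ≤ 6 * Real.log p * Real.sqrt X * (2 * Real.sqrt ((X / z : ℕ) : ℝ)) := by
        gcongr
        exact sum_inv_sqrt _
    _ ≤ 6 * Real.log p * Real.sqrt X * (2 * (Real.sqrt X / Real.sqrt z)) := by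
        gcongr
        rw [← Real.sqrt_div (by positivity)]
        exact Real.sqrt_le_sqrt Nat.cast_div_le
    _ = 12 * Real.log p * (Real.sqrt X * Real.sqrt X / Real.sqrt z) := by ring
    _ = 12 * Real.log p * (X / Real.sqrt z) := by rw [Real.mul_self_sqrt hXr.le]

lemma dvd_iff (n a k : ℕ) (ha : 1 ≤ a) : n ∣ a ^ k - 1 ↔ ((a : ℕ) : ZMod n) ^ k = 1 := by
  rw [← ZMod.natCast_eq_zero_iff, Nat.cast_sub (Nat.one_le_pow _ _ ha)]
  push_cast
  rw [sub_eq_zero]

/-- `m` is good for the base `a`: `m ≥ 1` and `a^m - 1` has a primitive prime factor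
dividing it exactly once. -/
def Good (a m : ℕ) : Prop :=
  1 ≤ m ∧ ∃ p : ℕ, p.Prime ∧ p ∣ a ^ m - 1 ∧
    (∀ k : ℕ, 1 ≤ k → k < m → ¬ p ∣ a ^ k - 1) ∧ ¬ p ^ 2 ∣ a ^ m - 1

/-- The number of `m ≤ N` that are good for the base `a`. -/
noncomputable def goodCount (a N : ℕ) : ℕ := {m : ℕ | m ≤ N ∧ Good a m}.ncard

lemma ne_zero_of_lt (p a : ℕ) (ha : 1 ≤ a) (hap : a < p) : ((a : ℕ) : ZMod p) ≠ 0 := by
  intro h
  rw [ZMod.natCast_eq_zero_iff] at h
  have := Nat.le_of_dvd (by omega) h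
  omega

lemma good_of_not (p a : ℕ) (hp : p.Prime) (ha : 1 ≤ a) (hap : a < p)
    (hw : ((a : ℕ) : ZMod (p ^ 2)) ^ (p - 1) ≠ 1) :
    Good a (orderOf ((a : ℕ) : ZMod p)) := by
  have : Fact p.Prime := ⟨hp⟩
  have h0 := ne_zero_of_lt p a ha hap
  have hd : orderOf ((a : ℕ) : ZMod p) ∣ p - 1 := ZMod.orderOf_dvd_card_sub_one h0
  have hp1 : 0 < p - 1 := by have := hp.two_le; omega
  have hpos : 0 < orderOf ((a : ℕ) : ZMod p) := Nat.pos_of_dvd_of_pos hd hp1
  refine ⟨hpos, p, hp, ?_, ?_, ?_⟩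
  · rw [dvd_iff _ _ _ ha]
    exact pow_orderOf_eq_one _
  · intro k hk hkm h
    rw [dvd_iff _ _ _ ha] at h
    have := orderOf_le_of_pow_eq_one (by omega) h
    omega
  · intro h
    rw [dvd_iff _ _ _ ha] at h
    apply hw
    obtain ⟨c, hc⟩ := hd
    rw [hc, pow_mul, h, one_pow]

lemma card_fibre (X N a m : ℕ) (ha : 2 ≤ a) (haX : a ≤ X) (hm : 1 ≤ m) (F : Finset ℕ)
    (hF : ∀ p ∈ F, p.Prime ∧ X < p ∧ p ≤ N ∧ orderOf ((a : ℕ) : ZMod p) = m) :
    F.card ^ 2 ≤ N := by
  classical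
  have h1 : F.card * m ≤ N := by
    have hsub : F ⊆ (Finset.Icc 1 (N / m)).image (fun j => m * j + 1) := by
      intro p hp
      obtain ⟨hpp, hXp, hpN, ho⟩ := hF p hp
      have : Fact p.Prime := ⟨hpp⟩
      have h0 := ne_zero_of_lt p a (by omega) (by omega)
      have hd := ZMod.orderOf_dvd_card_sub_one h0
      rw [ho] at hd
      obtain ⟨c, hc⟩ := hd
      rw [Finset.mem_image]
      have h2 := hpp.two_le
      refine ⟨c, ?_, by omega⟩
      rw [Finset.mem_Icc]
      constructor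
      · rcases Nat.eq_zero_or_pos c with h | h
        · subst h; omega
        · exact h
      · rw [Nat.le_div_iff_mul_le (by omega)]
        have : c * m = p - 1 := by rw [hc]; ring
        omega
    have h2 := le_trans (Finset.card_le_card hsub) Finset.card_image_le
    rw [Nat.card_Icc, Nat.add_sub_cancel] at h2
    exact (Nat.le_div_iff_mul_le (by omega)).1 h2
  have h2 : F.card ≤ m := by
    have hdvd : ∏ p ∈ F, p ∣ a ^ m - 1 := by
      apply Finset.prod_primes_dvd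
      · intro p hp
        exact (hF p hp).1.prime
      · intro p hp
        rw [dvd_iff _ _ _ (by omega), ← (hF p hp).2.2.2]
        exact pow_orderOf_eq_one _
    have hone : 1 < a ^ m := Nat.one_lt_pow (by omega) (by omega)
    have hle := Nat.le_of_dvd (by omega) hdvd
    have hge : a ^ F.card ≤ ∏ p ∈ F, p := by
      rw [← Finset.prod_const]
      apply Finset.prod_le_prod' 
      intro p hp
      have := (hF p hp).2.1
      omega
    have hlt : a ^ F.card < a ^ m := by omega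
    exact ((Nat.pow_lt_pow_iff_right (by omega)).1 hlt).le
  calc F.card ^ 2 = F.card * F.card := by ring
    _ ≤ F.card * m := Nat.mul_le_mul_left _ h2
    _ ≤ N := h1

lemma card_exceptional (X z N : ℕ) (hX : 2 ≤ X) (hz : 1 ≤ z) (P : Finset ℕ)
    (hP : ∀ p ∈ P, p.Prime ∧ X < p ∧ p ≤ N ∧ Real.log X ^ 2 ≤ Real.log p)
    (hPne : P.Nonempty) (A : Finset ℕ)
    (hA : ∀ a ∈ A, 2 ≤ a ∧ a ≤ X ∧ (∃ l : ℕ, l.Prime ∧ z ≤ l ∧ l ∣ a) ∧
      P.card ≤ 2 * (P.filter (fun p => ((a : ℕ) : ZMod (p ^ 2)) ^ (p - 1) = 1)).card) :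
    (A.card : ℝ) ≤ 24 * Real.log N * (X / Real.sqrt z) := by
  classical
  have hPc : (0 : ℝ) < P.card := by exact_mod_cast Finset.card_pos.2 hPne
  have h1 : A.card * P.card ≤
      2 * ∑ a ∈ A, (P.filter (fun p => ((a : ℕ) : ZMod (p ^ 2)) ^ (p - 1) = 1)).card := by
    rw [Finset.mul_sum, ← smul_eq_mul, ← Finset.sum_const]
    exact Finset.sum_le_sum (fun a ha => (hA a ha).2.2.2)
  have h2 : ∑ a ∈ A, (P.filter (fun p => ((a : ℕ) : ZMod (p ^ 2)) ^ (p - 1) = 1)).card =
      ∑ p ∈ P, (A.filter (fun a => ((a : ℕ) : ZMod (p ^ 2)) ^ (p - 1) = 1)).card :=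
    Finset.sum_card_bipartiteAbove_eq_sum_card_bipartiteBelow
      (fun a p => ((a : ℕ) : ZMod (p ^ 2)) ^ (p - 1) = 1)
  have h3 : ∀ p ∈ P, ((A.filter (fun a => ((a : ℕ) : ZMod (p ^ 2)) ^ (p - 1) = 1)).card : ℝ) ≤
      12 * Real.log N * (X / Real.sqrt z) := by
    intro p hp
    obtain ⟨hpp, hXp, hpN, hlog⟩ := hP p hp
    have h4 := card_bad X z p hpp hX hz hXp hlog
      (A.filter (fun a => ((a : ℕ) : ZMod (p ^ 2)) ^ (p - 1) = 1)) (by
        intro a ha
        rw [Finset.mem_filter] at ha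
        obtain ⟨h5, h6, h7, _⟩ := hA a ha.1
        exact ⟨by omega, h6, h7, ha.2⟩)
    refine le_trans h4 ?_
    have hp0 : (0 : ℝ) < p := by exact_mod_cast hpp.pos
    have : Real.log p ≤ Real.log N := Real.log_le_log hp0 (by exact_mod_cast hpN)
    gcongr
  have h4 : (A.card : ℝ) * P.card ≤ 2 * (P.card * (12 * Real.log N * (X / Real.sqrt z))) := by
    calc (A.card : ℝ) * P.card ≤ ((2 * ∑ a ∈ A,
          (P.filter (fun p => ((a : ℕ) : ZMod (p ^ 2)) ^ (p - 1) = 1)).card : ℕ) : ℝ) := by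
          exact_mod_cast h1
      _ = 2 * ∑ p ∈ P, ((A.filter (fun a => ((a : ℕ) : ZMod (p ^ 2)) ^ (p - 1) = 1)).card : ℝ) := by
          rw [h2]; push_cast; ring
      _ ≤ 2 * ∑ p ∈ P, 12 * Real.log N * (X / Real.sqrt z) := by
          have := Finset.sum_le_sum h3
          linarith
      _ = _ := by rw [Finset.sum_const, nsmul_eq_mul]
  have h5 : (A.card : ℝ) * P.card ≤ (24 * Real.log N * (X / Real.sqrt z)) * P.card := by
    linarith
  exact le_of_mul_le_mul_right h5 hPc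

lemma good_many (X N a : ℕ) (ha : 2 ≤ a) (haX : a ≤ X) (P : Finset ℕ)
    (hP : ∀ p ∈ P, p.Prime ∧ X < p ∧ p ≤ N)
    (hgood : ¬ P.card ≤ 2 * (P.filter (fun p => ((a : ℕ) : ZMod (p ^ 2)) ^ (p - 1) = 1)).card) :
    (P.card : ℝ) / (2 * Real.sqrt N) ≤ goodCount a N := by
  classical
  set Q := P.filter (fun p => ¬ ((a : ℕ) : ZMod (p ^ 2)) ^ (p - 1) = 1) with hQ
  have hcard : P.card ≤ 2 * Q.card := by
    have h0 : (P.filter (fun p => ((a : ℕ) : ZMod (p ^ 2)) ^ (p - 1) = 1)).card + Q.card =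
        P.card := by
      rw [hQ]
      exact Finset.card_filter_add_card_filter_not (s := P)
        (fun p => ((a : ℕ) : ZMod (p ^ 2)) ^ (p - 1) = 1)
    omega
  set S := Q.image (fun p => orderOf ((a : ℕ) : ZMod p)) with hS
  have hfib : Q.card ≤ Nat.sqrt N * S.card := by
    apply Finset.card_le_mul_card_image
    intro m hm
    rw [Finset.mem_image] at hm
    obtain ⟨p, hp, hpm⟩ := hm
    rw [Nat.le_sqrt']
    rw [hQ, Finset.mem_filter] at hp
    obtain ⟨h1, h2, h3⟩ := hP p hp.1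
    have hg := good_of_not p a h1 (by omega) (by omega) hp.2
    apply card_fibre X N a m ha haX (by rw [← hpm]; exact hg.1)
    intro q hq
    rw [Finset.mem_filter] at hq
    have hq1 := hq.1
    rw [hQ, Finset.mem_filter] at hq1
    obtain ⟨h4, h5, h6⟩ := hP q hq1.1
    exact ⟨h4, h5, h6, hq.2⟩
  have hle : S.card ≤ goodCount a N := by
    rw [goodCount, ← Set.ncard_coe_finset]
    apply Set.ncard_le_ncard
    · intro m hm
      rw [Finset.mem_coe, hS, Finset.mem_image] at hm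
      obtain ⟨p, hp, hpm⟩ := hm
      rw [hQ, Finset.mem_filter] at hp
      obtain ⟨h1, h2, h3⟩ := hP p hp.1
      have hg := good_of_not p a h1 (by omega) (by omega) hp.2
      rw [← hpm]
      refine ⟨?_, hg⟩
      have : Fact p.Prime := ⟨h1⟩
      have hd := ZMod.orderOf_dvd_card_sub_one (ne_zero_of_lt p a (by omega) (by omega))
      have := Nat.le_of_dvd (by have := h1.two_le; omega) hd
      omega
    · exact (Set.finite_Iic N).subset (fun m hm => hm.1)
  rcases Nat.eq_zero_or_pos N with hN | hN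
  · subst hN
    simp
  have hNr : (0 : ℝ) < N := by exact_mod_cast hN
  have hs : 0 < Real.sqrt N := Real.sqrt_pos.2 hNr
  rw [div_le_iff₀ (by positivity)]
  have h1 : (P.card : ℝ) ≤ 2 * (Nat.sqrt N * goodCount a N) := by
    have : P.card ≤ 2 * (Nat.sqrt N * goodCount a N) :=
      le_trans hcard (Nat.mul_le_mul_left _ (le_trans hfib (Nat.mul_le_mul_left _ hle)))
    exact_mod_cast this
  have h2 : (Nat.sqrt N : ℝ) ≤ Real.sqrt N := Real.nat_sqrt_le_real_sqrt
  calc (P.card : ℝ) ≤ 2 * (Nat.sqrt N * goodCount a N) := h1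
    _ ≤ 2 * (Real.sqrt N * goodCount a N) := by gcongr
    _ = goodCount a N * (2 * Real.sqrt N) := by ring

lemma log_le_two_sqrt (x : ℝ) (hx : 0 < x) : Real.log x ≤ 2 * (Real.sqrt x - 1) := by
  have h1 : 0 < Real.sqrt x := Real.sqrt_pos.2 hx
  have h2 := Real.log_le_sub_one_of_pos h1
  have h3 : Real.log x = 2 * Real.log (Real.sqrt x) := by
    rw [Real.log_sqrt hx.le]; ring
  rw [h3]
  linarith

lemma card_primes (X N : ℕ) (hX : 10 ≤ X) (hN : 4 * Real.log X ^ 2 ≤ Real.log N) :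
    (N : ℝ) / (4 * Real.log N) ≤ (((Finset.Icc 1 N).filter
      (fun p => p.Prime ∧ X < p ∧ Real.log X ^ 2 ≤ Real.log p)).card : ℝ) := by
  classical
  set P := (Finset.Icc 1 N).filter
      (fun p => p.Prime ∧ X < p ∧ Real.log X ^ 2 ≤ Real.log p) with hP
  have hXr : (10 : ℝ) ≤ X := by exact_mod_cast hX
  have hlogX : 2 ≤ Real.log X := by
    rw [Real.le_log_iff_exp_le (by linarith)]
    have h1 := Real.exp_one_lt_d9
    have h2 : Real.exp 2 = Real.exp 1 ^ 2 := by rw [← Real.exp_nat_mul]; norm_num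
    rw [h2]
    have h3 := Real.exp_pos 1
    nlinarith
  have hlogN : 16 ≤ Real.log N := by nlinarith
  have hN0 : (0 : ℝ) < N := by
    rcases Nat.eq_zero_or_pos N with h | h
    · subst h; simp at hlogN; linarith
    · exact_mod_cast h
  set q : ℝ := Real.sqrt (Real.sqrt N) with hq
  have hsN : 0 < Real.sqrt N := Real.sqrt_pos.2 hN0
  have hq0 : 0 < q := Real.sqrt_pos.2 hsN
  have hq2 : q ^ 2 = Real.sqrt N := Real.sq_sqrt hsN.le
  have hs2 : Real.sqrt N ^ 2 = N := Real.sq_sqrt hN0.le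
  have hlq : Real.log q = Real.log N / 4 := by
    rw [hq, Real.log_sqrt hsN.le, Real.log_sqrt hN0.le]; ring
  have hq50 : 16 ≤ q := by
    have h1 : Real.exp 4 ≤ q := by
      rw [← Real.le_log_iff_exp_le hq0, hlq]; linarith
    have h2 : (16 : ℝ) ≤ Real.exp 4 := by
      have h3 : Real.exp 4 = Real.exp 1 ^ 4 := by rw [← Real.exp_nat_mul]; norm_num
      have h4 := Real.exp_one_gt_d9
      rw [h3]
      calc (16 : ℝ) = 2 ^ 4 := by norm_num
        _ ≤ Real.exp 1 ^ 4 := pow_le_pow_left₀ (by norm_num) (by linarith) 4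
    linarith
  -- the primes not in `P`
  have hcov : N.primesLE ⊆ P ∪ Finset.Icc 1 ⌊q⌋₊ := by
    intro p hp
    have hp' : p ≤ N ∧ p.Prime := by
      simpa [Nat.primesLE, Nat.primesBelow, Nat.lt_succ_iff] using hp
    obtain ⟨hpN, hpp⟩ := hp'
    have hp0 : (0 : ℝ) < p := by exact_mod_cast hpp.pos
    rw [Finset.mem_union]
    by_cases hc : X < p ∧ Real.log X ^ 2 ≤ Real.log p
    · left
      rw [hP, Finset.mem_filter, Finset.mem_Icc]
      exact ⟨⟨hpp.one_lt.le, hpN⟩, hpp, hc.1, hc.2⟩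
    · right
      rw [Finset.mem_Icc]
      refine ⟨hpp.one_lt.le, ?_⟩
      apply Nat.le_floor
      have h1 : Real.log p ≤ Real.log X ^ 2 := by
        by_contra hcon
        push Not at hcon
        apply hc
        refine ⟨?_, hcon.le⟩
        have h2 : Real.log X < Real.log p := by nlinarith
        have h3 : (X : ℝ) < p := (Real.log_lt_log_iff (by linarith) hp0).1 h2
        exact_mod_cast h3
      rw [← Real.log_le_log_iff hp0 hq0, hlq]
      linarith
  have hcount : (N.primeCounting : ℝ) ≤ P.card + q := by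
    have h1 := Finset.card_le_card hcov
    rw [Nat.primesLE_card_eq_primeCounting] at h1
    have h2 := le_trans h1 (Finset.card_union_le _ _)
    rw [Nat.card_Icc, Nat.add_sub_cancel] at h2
    have h3 : ((⌊q⌋₊ : ℕ) : ℝ) ≤ q := Nat.floor_le hq0.le
    have h4 : (N.primeCounting : ℝ) ≤ P.card + (⌊q⌋₊ : ℕ) := by exact_mod_cast h2
    linarith
  have hpi := Chebyshev.pi_ge N
  have hlN0 : 0 < Real.log N := by linarith
  rw [div_le_iff₀ hlN0] at hpi
  have hlog2 : (0.69 : ℝ) < Real.log 2 := by have := Real.log_two_gt_d9; linarith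
  have h1 : Real.log ((N : ℝ) + 1) ≤ 2 * Real.sqrt N := by
    have h2 := log_le_two_sqrt ((N : ℝ) + 1) (by linarith)
    have h3 : Real.sqrt ((N : ℝ) + 1) ≤ Real.sqrt N + 1 := by
      rw [Real.sqrt_le_left (by linarith)]
      nlinarith
    linarith
  have h2 : Real.log N ≤ 4 * q := by
    have h3 := Real.log_le_sub_one_of_pos hq0
    rw [hlq] at h3
    linarith
  have h4 : q * Real.log N ≤ 4 * Real.sqrt N := by
    calc q * Real.log N ≤ q * (4 * q) := by gcongr
      _ = 4 * q ^ 2 := by ring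
      _ = 4 * Real.sqrt N := by rw [hq2]
  have h5 : (256 : ℝ) ≤ Real.sqrt N := by nlinarith
  have h6 : (N.primeCounting : ℝ) * Real.log N ≤ (P.card + q) * Real.log N := by gcongr
  rw [div_le_iff₀ (by positivity)]
  nlinarith

/-- For one `N`: all but few bases `a ≤ X` with a prime factor at least `z`
have many good `m ≤ N`. -/
lemma one_scale (X z N : ℕ) (hX : 10 ≤ X) (hz : 1 ≤ z)
    (hN : 4 * Real.log X ^ 2 ≤ Real.log N) :
    ((({a : ℕ | 2 ≤ a ∧ a ≤ X ∧ (∃ l : ℕ, l.Prime ∧ z ≤ l ∧ l ∣ a) ∧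
      (goodCount a N : ℝ) < Real.sqrt N / (8 * Real.log N)} : Set ℕ).ncard : ℕ) : ℝ) ≤
      24 * Real.log N * (X / Real.sqrt z) := by
  classical
  set P := (Finset.Icc 1 N).filter
      (fun p => p.Prime ∧ X < p ∧ Real.log X ^ 2 ≤ Real.log p) with hP
  have hcard := card_primes X N hX hN
  rw [← hP] at hcard
  have hXr : (10 : ℝ) ≤ X := by exact_mod_cast hX
  have hlogX : 0 < Real.log X := Real.log_pos (by linarith)
  have hlogN : 0 < Real.log N := lt_of_lt_of_le (by positivity) hN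
  have hN0 : (0 : ℝ) < N := by
    rcases Nat.eq_zero_or_pos N with h | h
    · subst h; simp at hlogN
    · exact_mod_cast h
  have hPmem : ∀ p ∈ P, p.Prime ∧ X < p ∧ p ≤ N ∧ Real.log X ^ 2 ≤ Real.log p := by
    intro p hp
    rw [hP, Finset.mem_filter, Finset.mem_Icc] at hp
    exact ⟨hp.2.1, hp.2.2.1, hp.1.2, hp.2.2.2⟩
  have hPne : P.Nonempty := by
    rw [← Finset.card_pos]
    have : (0 : ℝ) < P.card := lt_of_lt_of_le (by positivity) hcard
    exact_mod_cast this
  set A := (Finset.Icc 2 X).filter (fun a => (∃ l : ℕ, l.Prime ∧ z ≤ l ∧ l ∣ a) ∧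
      P.card ≤ 2 * (P.filter (fun p => ((a : ℕ) : ZMod (p ^ 2)) ^ (p - 1) = 1)).card) with hA
  have hAc := card_exceptional X z N (by omega) hz P hPmem hPne A (by
    intro a ha
    rw [hA, Finset.mem_filter, Finset.mem_Icc] at ha
    exact ⟨ha.1.1, ha.1.2, ha.2.1, ha.2.2⟩)
  have hsub : ({a : ℕ | 2 ≤ a ∧ a ≤ X ∧ (∃ l : ℕ, l.Prime ∧ z ≤ l ∧ l ∣ a) ∧
      (goodCount a N : ℝ) < Real.sqrt N / (8 * Real.log N)} : Set ℕ) ⊆ (A : Set ℕ) := by
    intro a ha
    obtain ⟨h1, h2, h3, h4⟩ := ha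
    rw [Finset.mem_coe, hA, Finset.mem_filter, Finset.mem_Icc]
    refine ⟨⟨h1, h2⟩, h3, ?_⟩
    by_contra hcon
    have h5 := good_many X N a h1 h2 P
      (fun p hp => ⟨(hPmem p hp).1, (hPmem p hp).2.1, (hPmem p hp).2.2.1⟩) hcon
    have h6 : Real.sqrt N / (8 * Real.log N) ≤ (P.card : ℝ) / (2 * Real.sqrt N) := by
      have hs : 0 < Real.sqrt N := Real.sqrt_pos.2 hN0
      rw [div_le_div_iff₀ (by positivity) (by positivity)]
      rw [div_le_iff₀ (by positivity)] at hcard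
      have h7 : Real.sqrt N * (2 * Real.sqrt N) = 2 * N := by
        have := Real.mul_self_sqrt hN0.le
        nlinarith
      rw [h7]
      linarith
    linarith
  have h1 := Set.ncard_le_ncard hsub (Finset.finite_toSet A)
  rw [Set.ncard_coe_finset] at h1
  have h2 : ((({a : ℕ | 2 ≤ a ∧ a ≤ X ∧ (∃ l : ℕ, l.Prime ∧ z ≤ l ∧ l ∣ a) ∧
      (goodCount a N : ℝ) < Real.sqrt N / (8 * Real.log N)} : Set ℕ).ncard : ℕ) : ℝ) ≤
      A.card := by exact_mod_cast h1
  linarith

/-- Rankin: numbers up to `X` all of whose prime factors are below `z`. -/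
lemma smooth_count (X z : ℕ) (hX : 1 ≤ X) (hz : 8 ≤ z) (A : Finset ℕ)
    (hA : ∀ a ∈ A, 1 ≤ a ∧ a ≤ X ∧ ∀ l : ℕ, l.Prime → l ∣ a → l < z) :
    (A.card : ℝ) ≤ X * Real.exp (6 + 6 * Real.log z - Real.log X / Real.log z) := by
  classical
  have hzr : (8 : ℝ) ≤ z := by exact_mod_cast hz
  have hXr : (0 : ℝ) < X := by exact_mod_cast hX
  have hlz : 2 ≤ Real.log z := by
    rw [Real.le_log_iff_exp_le (by linarith)]
    have h1 := Real.exp_one_lt_d9
    have h2 : Real.exp 2 = Real.exp 1 ^ 2 := by rw [← Real.exp_nat_mul]; norm_num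
    rw [h2]
    have h3 := Real.exp_pos 1
    nlinarith
  set s : ℝ := 1 - 1 / Real.log z with hs
  have hinv : 1 / Real.log z ≤ 1 / 2 := one_div_le_one_div_of_le (by norm_num) hlz
  have hinv0 : 0 < 1 / Real.log z := by positivity
  have hs1 : 1 / 2 ≤ s := by rw [hs]; linarith
  let f : ℕ →* ℝ :=
    { toFun := fun n => (n : ℝ) ^ (-s)
      map_one' := by simp
      map_mul' := by
        intro m n
        push_cast
        exact Real.mul_rpow (Nat.cast_nonneg _) (Nat.cast_nonneg _) }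
  have hf : ∀ n : ℕ, f n = (n : ℝ) ^ (-s) := fun n => rfl
  have hf0 : ∀ n : ℕ, 0 ≤ f n := fun n => by rw [hf]; positivity
  have hfp : ∀ {p : ℕ}, p.Prime → ‖f p‖ < 1 := by
    intro p hp
    rw [Real.norm_of_nonneg (hf0 p), hf]
    exact Real.rpow_lt_one_of_one_lt_of_neg (by exact_mod_cast hp.one_lt) (by linarith)
  obtain ⟨-, hsum⟩ :=
    EulerProduct.summable_and_hasSum_smoothNumbers_prod_primesBelow_geometric hfp z
  have h1 : ∑ a ∈ A, f a ≤ ∏ p ∈ z.primesBelow, (1 - f p)⁻¹ := by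
    have h2 : ∑ a ∈ A.subtype (fun a => a ∈ z.smoothNumbers), f a ≤
        ∏ p ∈ z.primesBelow, (1 - f p)⁻¹ :=
      sum_le_hasSum _ (fun i _ => hf0 _) hsum
    refine le_trans (le_of_eq ?_) h2
    rw [Finset.sum_subtype_of_mem (f := fun a => f a)]
    intro a ha
    obtain ⟨ha1, ha2, ha3⟩ := hA a ha
    exact Nat.mem_smoothNumbers'.2 ha3
  have h2 : ∏ p ∈ z.primesBelow, (1 - f p)⁻¹ ≤ Real.exp (6 * (1 + Real.log z)) := by
    have h3 : ∀ p ∈ z.primesBelow, (1 - f p)⁻¹ ≤ Real.exp (6 * (p : ℝ)⁻¹) := by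
      intro p hp
      have hpz : p < z := Nat.lt_of_mem_primesBelow hp
      have hpp : p.Prime := Nat.prime_of_mem_primesBelow hp
      have hpr : (2 : ℝ) ≤ p := by exact_mod_cast hpp.two_le
      have hp0 : (0 : ℝ) < p := by linarith
      have hfb : f p ≤ 3 * (p : ℝ)⁻¹ := by
        rw [hf, hs, neg_sub, Real.rpow_sub hp0, Real.rpow_one]
        have h4 : (p : ℝ) ^ (1 / Real.log z) ≤ 3 := by
          rw [Real.rpow_def_of_pos hp0]
          have h5 : Real.log p * (1 / Real.log z) ≤ 1 := by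
            rw [mul_one_div, div_le_one (by linarith)]
            exact Real.log_le_log hp0 (by exact_mod_cast hpz.le)
          have h6 := Real.exp_le_exp.2 h5
          have h7 := Real.exp_one_lt_d9
          linarith
        rw [div_eq_mul_inv]
        gcongr
      have hf2 : f p ^ 2 ≤ 1 / 2 := by
        rw [hf, ← Real.rpow_natCast, ← Real.rpow_mul hp0.le]
        calc (p : ℝ) ^ (-s * ((2 : ℕ) : ℝ)) ≤ (p : ℝ) ^ (-1 : ℝ) := by
              apply Real.rpow_le_rpow_of_exponent_le (by linarith)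
              push_cast
              linarith
          _ = (p : ℝ)⁻¹ := Real.rpow_neg_one _
          _ ≤ 1 / 2 := by
              rw [inv_eq_one_div]
              exact one_div_le_one_div_of_le (by norm_num) hpr
      have h0 := hf0 p
      have hlt : f p < 1 := by nlinarith
      have h8 : (1 - f p)⁻¹ ≤ Real.exp (2 * f p) := by
        rw [inv_le_iff_one_le_mul₀ (by linarith)]
        have h9 := Real.quadratic_le_exp_of_nonneg (x := 2 * f p) (by linarith)
        have h10 : (1 : ℝ) ≤ (1 + 2 * f p + (2 * f p) ^ 2 / 2) * (1 - f p) := by nlinarith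
        calc (1 : ℝ) ≤ (1 + 2 * f p + (2 * f p) ^ 2 / 2) * (1 - f p) := h10
          _ ≤ Real.exp (2 * f p) * (1 - f p) := by
              apply mul_le_mul_of_nonneg_right h9 (by linarith)
      refine le_trans h8 (Real.exp_le_exp.2 ?_)
      linarith
    have h4 : ∏ p ∈ z.primesBelow, (1 - f p)⁻¹ ≤
        ∏ p ∈ z.primesBelow, Real.exp (6 * (p : ℝ)⁻¹) := by
      apply Finset.prod_le_prod
      · intro p hp
        have hpp : p.Prime := Nat.prime_of_mem_primesBelow hp
        have := hfp hpp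
        rw [Real.norm_of_nonneg (hf0 p)] at this
        rw [inv_nonneg]
        linarith
      · exact h3
    refine le_trans h4 ?_
    rw [← Real.exp_sum, ← Finset.mul_sum]
    apply Real.exp_le_exp.2
    have h5 : ∑ p ∈ z.primesBelow, (p : ℝ)⁻¹ ≤ 1 + Real.log z := by
      have h6 := harmonic_le_one_add_log z
      refine le_trans ?_ h6
      rw [harmonic_eq_sum_Icc]
      push_cast
      apply Finset.sum_le_sum_of_subset_of_nonneg
      · intro p hp
        have hpz : p < z := Nat.lt_of_mem_primesBelow hp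
        have hpp : p.Prime := Nat.prime_of_mem_primesBelow hp
        rw [Finset.mem_Icc]
        exact ⟨hpp.one_lt.le, hpz.le⟩
      · intro i _ _
        positivity
    linarith
  have h3 : (A.card : ℝ) ≤ (X : ℝ) ^ s * ∑ a ∈ A, f a := by
    rw [Finset.mul_sum]
    calc (A.card : ℝ) = ∑ a ∈ A, (1 : ℝ) := by simp
      _ ≤ ∑ a ∈ A, (X : ℝ) ^ s * f a := by
        apply Finset.sum_le_sum
        intro a ha
        obtain ⟨ha1, ha2, ha3⟩ := hA a ha
        have ha0 : (0 : ℝ) < a := by exact_mod_cast ha1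
        rw [hf, Real.rpow_neg ha0.le, ← div_eq_mul_inv, ← Real.div_rpow hXr.le ha0.le]
        apply Real.one_le_rpow
        · rw [one_le_div ha0]; exact_mod_cast ha2
        · linarith
  have h4 : (X : ℝ) ^ s = X * Real.exp (-(Real.log X / Real.log z)) := by
    rw [Real.rpow_def_of_pos hXr, hs]
    have : Real.log X * (1 - 1 / Real.log z) = Real.log X + -(Real.log X / Real.log z) := by ring
    rw [this, Real.exp_add, Real.exp_log hXr]
  calc (A.card : ℝ) ≤ (X : ℝ) ^ s * ∑ a ∈ A, f a := h3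
    _ ≤ (X : ℝ) ^ s * Real.exp (6 * (1 + Real.log z)) := by
        apply mul_le_mul_of_nonneg_left (le_trans h1 h2) (by positivity)
    _ = X * Real.exp (6 + 6 * Real.log z - Real.log X / Real.log z) := by
        rw [h4, mul_assoc, ← Real.exp_add]
        congr 2
        ring

lemma goodCount_mono (a M N : ℕ) (h : M ≤ N) : goodCount a M ≤ goodCount a N := by
  apply Set.ncard_le_ncard
  · intro m hm
    exact ⟨le_trans hm.1 h, hm.2⟩
  · exact (Set.finite_Iic N).subset (fun m hm => hm.1)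

open Filter Topology in
lemma asymp (C : ℝ) : ∀ᶠ s : ℝ in atTop,
    (C * s + 1) * (48 * Real.exp (-(3 * s / 40))) + Real.exp (6 - 5 * s / 2) ≤
      Real.exp (-(s / 20)) := by
  have h1 : Tendsto (fun s : ℝ => (48 * 40 * C) * ((s / 40) * Real.exp (-(s / 40))) +
      48 * Real.exp (-(s / 40)) + Real.exp (6 - 49 / 20 * s)) atTop
      (𝓝 ((48 * 40 * C) * 0 + 48 * 0 + 0)) := by
    have ht : Tendsto (fun s : ℝ => s / 40) atTop atTop :=
      tendsto_id.atTop_div_const (by norm_num)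
    have ha : Tendsto (fun s : ℝ => (s / 40) * Real.exp (-(s / 40))) atTop (𝓝 0) := by
      have := (Real.tendsto_pow_mul_exp_neg_atTop_nhds_zero 1).comp ht
      simpa [Function.comp_def] using this
    have hb : Tendsto (fun s : ℝ => Real.exp (-(s / 40))) atTop (𝓝 0) :=
      Real.tendsto_exp_neg_atTop_nhds_zero.comp ht
    have hc : Tendsto (fun s : ℝ => Real.exp (6 - 49 / 20 * s)) atTop (𝓝 0) := by
      apply Real.tendsto_exp_atBot.comp
      apply Filter.tendsto_atTop_atBot.2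
      intro b
      exact ⟨(6 - b) * 20 / 49, fun a ha => by linarith⟩
    exact ((ha.const_mul _).add (hb.const_mul _)).add hc
  have h2 : ∀ᶠ s : ℝ in atTop, (48 * 40 * C) * ((s / 40) * Real.exp (-(s / 40))) +
      48 * Real.exp (-(s / 40)) + Real.exp (6 - 49 / 20 * s) < 1 :=
    h1.eventually_lt_const (by norm_num)
  filter_upwards [h2] with s h3
  have e1 : Real.exp (-(3 * s / 40)) = Real.exp (-(s / 40)) * Real.exp (-(s / 20)) := by
    rw [← Real.exp_add]; congr 1; ring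
  have e2 : Real.exp (6 - 5 * s / 2) = Real.exp (6 - 49 / 20 * s) * Real.exp (-(s / 20)) := by
    rw [← Real.exp_add]; congr 1; ring
  rw [e1, e2]
  have h4 := Real.exp_pos (-(s / 20))
  have h5 : (C * s + 1) * (48 * (Real.exp (-(s / 40)) * Real.exp (-(s / 20)))) +
      Real.exp (6 - 49 / 20 * s) * Real.exp (-(s / 20)) =
      ((48 * 40 * C) * ((s / 40) * Real.exp (-(s / 40))) +
      48 * Real.exp (-(s / 40)) + Real.exp (6 - 49 / 20 * s)) * Real.exp (-(s / 20)) := by
    ring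
  rw [h5]
  nlinarith

open Filter Topology in
lemma asymp2 (e : ℝ) (he : 0 < e) : ∃ y₀ : ℝ, ∀ y : ℝ, y₀ ≤ y →
    8 * y * Real.exp (1 / 2) ≤ Real.exp (e / 2 * y) := by
  have ht : Tendsto (fun y : ℝ => e / 2 * y) atTop atTop :=
    tendsto_id.const_mul_atTop (by positivity)
  have h1 : Tendsto (fun y : ℝ => (16 / e * Real.exp (1 / 2)) *
      ((e / 2 * y) * Real.exp (-(e / 2 * y)))) atTop
      (𝓝 ((16 / e * Real.exp (1 / 2)) * 0)) := by
    apply Tendsto.const_mul
    have := (Real.tendsto_pow_mul_exp_neg_atTop_nhds_zero 1).comp ht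
    simpa [Function.comp_def] using this
  have h2 : ∀ᶠ y : ℝ in atTop, (16 / e * Real.exp (1 / 2)) *
      ((e / 2 * y) * Real.exp (-(e / 2 * y))) < 1 :=
    h1.eventually_lt_const (by norm_num)
  obtain ⟨y₀, hy₀⟩ := Filter.eventually_atTop.1 h2
  refine ⟨y₀, fun y hy => ?_⟩
  have h3 := hy₀ y hy
  have h4 := Real.exp_pos (e / 2 * y)
  have h5 : (16 / e * Real.exp (1 / 2)) * ((e / 2 * y) * Real.exp (-(e / 2 * y))) =
      (8 * y * Real.exp (1 / 2)) / Real.exp (e / 2 * y) := by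
    rw [Real.exp_neg]
    field_simp
    ring
  rw [h5, div_lt_one h4] at h3
  exact h3.le

lemma scale (e : ℝ) (he : 0 < e) (he2 : e ≤ 1 / 4) (s : ℝ) (hs : 64 ≤ s)
    (hy : ∀ y : ℝ, s ^ 6 ≤ y → 8 * y * Real.exp (1 / 2) ≤ Real.exp (e / 2 * y))
    (N : ℕ) (h1 : s ^ 6 ≤ Real.log N) (h2 : Real.log N ≤ Real.exp (s / 20)) :
    ∃ j ∈ Finset.range (⌊s / (20 * Real.log (1 / (1 - e)))⌋₊ + 1),
      4 * s ^ 4 ≤ Real.log ((⌊Real.exp ((1 / (1 - e)) ^ j)⌋₊ : ℕ) : ℝ) ∧
      Real.log ((⌊Real.exp ((1 / (1 - e)) ^ j)⌋₊ : ℕ) : ℝ) ≤ Real.exp (s / 20) ∧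
      ⌊Real.exp ((1 / (1 - e)) ^ j)⌋₊ ≤ N ∧
      (N : ℝ) ^ (1 / 2 - e : ℝ) ≤ Real.sqrt ((⌊Real.exp ((1 / (1 - e)) ^ j)⌋₊ : ℕ) : ℝ) /
        (8 * Real.log ((⌊Real.exp ((1 / (1 - e)) ^ j)⌋₊ : ℕ) : ℝ)) := by
  set r : ℝ := 1 / (1 - e) with hr
  have hr1 : 1 < r := by
    rw [hr, lt_div_iff₀ (by linarith)]; linarith
  have hr2 : r ≤ 2 := by
    rw [hr, div_le_iff₀ (by linarith)]; linarith
  have hlr : 0 < Real.log r := Real.log_pos hr1
  have hs6 : (64 : ℝ) ^ 6 ≤ s ^ 6 := pow_le_pow_left₀ (by norm_num) hs 6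
  set y : ℝ := Real.log N with hyN
  have hy1 : (1000 : ℝ) ≤ y := by
    have : (1000 : ℝ) ≤ 64 ^ 6 := by norm_num
    linarith
  have hN0 : 0 < N := by
    rcases Nat.eq_zero_or_pos N with h | h
    · rw [hyN, h] at hy1; simp at hy1; linarith
    · exact h
  have hNr : (0 : ℝ) < N := by exact_mod_cast hN0
  obtain ⟨j, hj1, hj2⟩ := exists_nat_pow_near (by linarith : (1 : ℝ) ≤ y) hr1
  set M : ℕ := ⌊Real.exp (r ^ j)⌋₊ with hM
  have hyr : y / r < r ^ j := by
    rw [div_lt_iff₀ (by linarith), ← pow_succ]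
    exact hj2
  have hyr2 : y / 2 ≤ y / r := by
    apply div_le_div_of_nonneg_left (by linarith) (by linarith) hr2
  have hrj : (500 : ℝ) ≤ r ^ j := by linarith
  have hexpb : (2 : ℝ) ≤ Real.exp (r ^ j) := by
    have := Real.add_one_le_exp (r ^ j)
    linarith
  have hMle : (M : ℝ) ≤ Real.exp (r ^ j) := Nat.floor_le (Real.exp_pos _).le
  have hMge : Real.exp (r ^ j - 1) ≤ M := by
    have h3 := Nat.lt_floor_add_one (Real.exp (r ^ j))
    rw [← hM] at h3
    rw [Real.exp_sub]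
    rw [div_le_iff₀ (Real.exp_pos 1)]
    have h4 := Real.exp_one_gt_d9
    nlinarith
  have hM0 : (0 : ℝ) < M := lt_of_lt_of_le (Real.exp_pos _) hMge
  have hlM1 : r ^ j - 1 ≤ Real.log M := by
    rw [Real.le_log_iff_exp_le hM0]; exact hMge
  have hlM2 : Real.log M ≤ r ^ j := by
    rw [Real.log_le_iff_le_exp hM0]; exact hMle
  have hMN : M ≤ N := by
    have h3 : (M : ℝ) ≤ N := by
      refine le_trans hMle ?_
      rw [← Real.le_log_iff_exp_le hNr]
      exact hj1
    exact_mod_cast h3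
  refine ⟨j, ?_, ?_, ?_, hMN, ?_⟩
  · rw [Finset.mem_range, Nat.lt_succ_iff]
    apply Nat.le_floor
    rw [le_div_iff₀ (by positivity)]
    have h3 : r ^ j ≤ Real.exp (s / 20) := le_trans hj1 h2
    have h4 := Real.log_le_log (by positivity) h3
    rw [Real.log_pow, Real.log_exp] at h4
    linarith
  · have h3 : 16 * s ^ 4 ≤ s ^ 6 := by
      have h4 : s ^ 6 = s ^ 2 * s ^ 4 := by ring
      rw [h4]
      have h5 : (16 : ℝ) ≤ s ^ 2 := by nlinarith
      have h6 : (0 : ℝ) ≤ s ^ 4 := by positivity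
      nlinarith
    have h7 : (1 : ℝ) ≤ s ^ 4 := one_le_pow₀ (by linarith)
    linarith
  · linarith
  · have hlMpos : 0 < Real.log M := by linarith
    rw [le_div_iff₀ (by positivity)]
    have h3 : Real.exp ((y / r - 1) / 2) ≤ Real.sqrt M := by
      apply Real.le_sqrt_of_sq_le
      rw [← Real.exp_nat_mul]
      refine le_trans (Real.exp_le_exp.2 ?_) hMge
      push_cast
      linarith
    have h4 : y / r = (1 - e) * y := by
      rw [hr]; field_simp
    have h5 := hy y h1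
    have h6 : Real.log M ≤ y := by linarith
    calc (N : ℝ) ^ (1 / 2 - e : ℝ) * (8 * Real.log M)
        ≤ (N : ℝ) ^ (1 / 2 - e : ℝ) * (8 * y) := by gcongr
      _ = Real.exp ((1 / 2 - e) * y - 1 / 2) * (8 * y * Real.exp (1 / 2)) := by
          rw [Real.rpow_def_of_pos hNr, ← hyN]
          have : y * (1 / 2 - e) = ((1 / 2 - e) * y - 1 / 2) + 1 / 2 := by ring
          rw [this, Real.exp_add]
          ring
      _ ≤ Real.exp ((1 / 2 - e) * y - 1 / 2) * Real.exp (e / 2 * y) := by gcongr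
      _ = Real.exp ((y / r - 1) / 2) := by
          rw [← Real.exp_add, h4]
          congr 1
          ring
      _ ≤ Real.sqrt M := h3

/-- Almost all bases, for exponents `1/2 - e`, small `e`. -/
lemma almost_all_small (e : ℝ) (he : 0 < e) (he2 : e ≤ 1 / 4) :
    ∃ X₀ : ℕ, ∀ X : ℕ, X₀ ≤ X →
    ((({a : ℕ | 2 ≤ a ∧ a ≤ X ∧ ¬ ∀ N : ℕ, Real.log X ^ 3 ≤ Real.log N →
        Real.log N ≤ Real.exp (Real.sqrt (Real.log X) / 20) →
        (N : ℝ) ^ (1 / 2 - e : ℝ) ≤ goodCount a N} : Set ℕ).ncard : ℕ) : ℝ) ≤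
      X * Real.exp (-(Real.sqrt (Real.log X) / 20)) := by
  classical
  set C : ℝ := 1 / (20 * Real.log (1 / (1 - e))) with hC
  have hr1 : 1 < 1 / (1 - e) := by
    rw [lt_div_iff₀ (by linarith)]; linarith
  have hlr : 0 < Real.log (1 / (1 - e)) := Real.log_pos hr1
  have hC0 : 0 < C := by positivity
  obtain ⟨s₁, hs₁⟩ := Filter.eventually_atTop.1 (asymp C)
  obtain ⟨y₀, hy₀⟩ := asymp2 e he
  set s₀ : ℝ := max (max 64 s₁) y₀ with hs₀
  have h64 : 64 ≤ s₀ := le_trans (le_max_left _ _) (le_max_left _ _)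
  refine ⟨max 10 ⌈Real.exp (s₀ ^ 2)⌉₊, ?_⟩
  intro X hX
  have hX10 : 10 ≤ X := le_trans (le_max_left _ _) hX
  have hXe : Real.exp (s₀ ^ 2) ≤ X :=
    le_trans (Nat.le_ceil _) (by exact_mod_cast le_trans (le_max_right _ _) hX)
  have hX0 : (0 : ℝ) < X := lt_of_lt_of_le (Real.exp_pos _) hXe
  have hlX : s₀ ^ 2 ≤ Real.log X := by rwa [Real.le_log_iff_exp_le hX0]
  set s : ℝ := Real.sqrt (Real.log X) with hs
  have hlX0 : 0 ≤ Real.log X := le_trans (by positivity) hlX
  have hs2 : s ^ 2 = Real.log X := Real.sq_sqrt hlX0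
  have hss : s₀ ≤ s := Real.le_sqrt_of_sq_le hlX
  have hs64' : 64 ≤ s := le_trans h64 hss
  have hmain := hs₁ s (le_trans (le_trans (le_max_right _ _) (le_max_left _ _)) hss)
  have hyy : ∀ y : ℝ, s ^ 6 ≤ y → 8 * y * Real.exp (1 / 2) ≤ Real.exp (e / 2 * y) := by
    intro y hy
    apply hy₀
    have h1 : s ≤ s ^ 6 := le_self_pow₀ (by linarith) (by norm_num)
    have h2 : y₀ ≤ s := le_trans (le_max_right _ _) hss
    linarith
  set z : ℕ := ⌊Real.exp (s / 4)⌋₊ with hz
  have hexp16 : (16 : ℝ) ≤ Real.exp (s / 4) := by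
    have h1 := Real.add_one_le_exp (s / 4)
    linarith
  have hz8 : 8 ≤ z := by
    rw [hz]
    apply Nat.le_floor
    push_cast
    linarith
  have hzle : (z : ℝ) ≤ Real.exp (s / 4) := Nat.floor_le (Real.exp_pos _).le
  have hzge : Real.exp (s / 4) / 4 ≤ z := by
    have := Nat.lt_floor_add_one (Real.exp (s / 4))
    rw [← hz] at this
    linarith
  have hzr : (8 : ℝ) ≤ z := by exact_mod_cast hz8
  have hsqrtz : Real.exp (s / 8) / 2 ≤ Real.sqrt z := by
    apply Real.le_sqrt_of_sq_le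
    have h1 : Real.exp (s / 4) = Real.exp (s / 8) ^ 2 := by
      rw [← Real.exp_nat_mul]; congr 1; push_cast; ring
    rw [h1] at hzge
    nlinarith
  have hlz : Real.log z ≤ s / 4 := by
    rw [← Real.log_exp (s / 4)]
    exact Real.log_le_log (by linarith) hzle
  have hlz0 : 0 < Real.log z := Real.log_pos (by linarith)
  -- the pieces
  set Sm : Finset ℕ := (Finset.Icc 2 X).filter (fun a => ∀ l : ℕ, l.Prime → l ∣ a → l < z)
    with hSm
  have hSmc : (Sm.card : ℝ) ≤ X * Real.exp (6 - 5 * s / 2) := by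
    have h1 := smooth_count X z (by omega) hz8 Sm (by
      intro a ha
      rw [hSm, Finset.mem_filter, Finset.mem_Icc] at ha
      exact ⟨by omega, ha.1.2, ha.2⟩)
    refine le_trans h1 ?_
    apply mul_le_mul_of_nonneg_left _ hX0.le
    apply Real.exp_le_exp.2
    have h2 : 4 * s ≤ Real.log X / Real.log z := by
      rw [le_div_iff₀ hlz0, ← hs2]
      nlinarith
    linarith
  set G : ℕ → ℕ := fun j => ⌊Real.exp ((1 / (1 - e)) ^ j)⌋₊ with hG
  set J : Finset ℕ :=
    (Finset.range (⌊s / (20 * Real.log (1 / (1 - e)))⌋₊ + 1)).filter (fun j =>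
    4 * s ^ 4 ≤ Real.log ((G j : ℕ) : ℝ) ∧
      Real.log ((G j : ℕ) : ℝ) ≤ Real.exp (s / 20)) with hJ
  set Ex : ℕ → Set ℕ := fun j => {a : ℕ | 2 ≤ a ∧ a ≤ X ∧ (∃ l : ℕ, l.Prime ∧ z ≤ l ∧ l ∣ a) ∧
      (goodCount a (G j) : ℝ) < Real.sqrt ((G j : ℕ) : ℝ) /
        (8 * Real.log ((G j : ℕ) : ℝ))} with hEx
  have hExfin : ∀ j, (Ex j).Finite := fun j =>
    (Set.finite_Iic X).subset (fun a ha => ha.2.1)
  set ExF : ℕ → Finset ℕ := fun j => (hExfin j).toFinset with hExF
  have hExc : ∀ j ∈ J, ((ExF j).card : ℝ) ≤ X * (48 * Real.exp (-(3 * s / 40))) := by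
    intro j hj
    rw [hJ, Finset.mem_filter] at hj
    have h1 := one_scale X z (G j) hX10 (by omega) (by
      rw [← hs2]
      have : (s ^ 2) ^ 2 = s ^ 4 := by ring
      rw [this]
      exact hj.2.1)
    have h2 : (Ex j).ncard = (ExF j).card := by
      rw [hExF]
      exact Set.ncard_eq_toFinset_card (Ex j) (hExfin j)
    rw [← h2]
    refine le_trans h1 ?_
    have h3 : (X : ℝ) / Real.sqrt z ≤ X * (2 * Real.exp (-(s / 8))) := by
      rw [Real.exp_neg, div_eq_mul_inv]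
      apply mul_le_mul_of_nonneg_left _ hX0.le
      have h4 : (Real.sqrt z)⁻¹ ≤ (Real.exp (s / 8) / 2)⁻¹ :=
        inv_anti₀ (by positivity) hsqrtz
      refine le_trans h4 (le_of_eq ?_)
      rw [inv_div, div_eq_mul_inv]
    calc 24 * Real.log ((G j : ℕ) : ℝ) * ((X : ℝ) / Real.sqrt z)
        ≤ 24 * Real.exp (s / 20) * (X * (2 * Real.exp (-(s / 8)))) := by
          gcongr
          exact hj.2.2
      _ = X * (48 * (Real.exp (s / 20) * Real.exp (-(s / 8)))) := by ring
      _ = X * (48 * Real.exp (-(3 * s / 40))) := by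
          rw [← Real.exp_add]
          congr 3
          ring
  have hJc : (J.card : ℝ) ≤ C * s + 1 := by
    have h1 : J.card ≤ ⌊s / (20 * Real.log (1 / (1 - e)))⌋₊ + 1 := by
      rw [hJ]
      refine le_trans (Finset.card_filter_le _ _) ?_
      simp
    have h2 : ((⌊s / (20 * Real.log (1 / (1 - e)))⌋₊ : ℕ) : ℝ) ≤
        s / (20 * Real.log (1 / (1 - e))) := Nat.floor_le (by positivity)
    have h3 : (J.card : ℝ) ≤ (⌊s / (20 * Real.log (1 / (1 - e)))⌋₊ : ℕ) + 1 := by
      exact_mod_cast h1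
    have h4 : s / (20 * Real.log (1 / (1 - e))) = C * s := by rw [hC]; ring
    linarith
  have hsub : ({a : ℕ | 2 ≤ a ∧ a ≤ X ∧ ¬ ∀ N : ℕ, Real.log X ^ 3 ≤ Real.log N →
        Real.log N ≤ Real.exp (s / 20) →
        (N : ℝ) ^ (1 / 2 - e : ℝ) ≤ goodCount a N} : Set ℕ) ⊆
      ((J.biUnion ExF ∪ Sm : Finset ℕ) : Set ℕ) := by
    intro a ha
    obtain ⟨ha2, haX, hcon⟩ := ha
    by_cases hsm : ∀ l : ℕ, l.Prime → l ∣ a → l < z
    · rw [Finset.mem_coe, Finset.mem_union]
      right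
      rw [hSm, Finset.mem_filter, Finset.mem_Icc]
      exact ⟨⟨ha2, haX⟩, hsm⟩
    · push Not at hsm hcon
      obtain ⟨l, hl1, hl2, hl3⟩ := hsm
      obtain ⟨N, hN1, hN2, hN3⟩ := hcon
      obtain ⟨j, hj1, hj2, hj3, hj4, hj5⟩ := scale e he he2 s hs64' hyy N (by
        have : s ^ 6 = (s ^ 2) ^ 3 := by ring
        rw [this, hs2]
        exact hN1) hN2
      rw [Finset.mem_coe, Finset.mem_union, Finset.mem_biUnion]
      left
      refine ⟨j, ?_, ?_⟩
      · rw [hJ, Finset.mem_filter]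
        exact ⟨hj1, hj2, hj3⟩
      · rw [hExF]
        simp only [Set.Finite.mem_toFinset]
        refine ⟨ha2, haX, ⟨l, hl1, hl3, hl2⟩, ?_⟩
        have h1 : (goodCount a (G j) : ℝ) ≤ goodCount a N := by
          exact_mod_cast goodCount_mono a _ N hj4
        have h2 : (N : ℝ) ^ (1 / 2 - e : ℝ) ≤ Real.sqrt ((G j : ℕ) : ℝ) /
          (8 * Real.log ((G j : ℕ) : ℝ)) := hj5
        linarith
  have h1 := Set.ncard_le_ncard hsub (Finset.finite_toSet _)
  rw [Set.ncard_coe_finset] at h1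
  have h2 : (((J.biUnion ExF ∪ Sm : Finset ℕ).card : ℕ) : ℝ) ≤
      (C * s + 1) * (X * (48 * Real.exp (-(3 * s / 40)))) + X * Real.exp (6 - 5 * s / 2) := by
    have h3 : (J.biUnion ExF ∪ Sm).card ≤ ∑ j ∈ J, (ExF j).card + Sm.card :=
      le_trans (Finset.card_union_le _ _) (Nat.add_le_add_right Finset.card_biUnion_le _)
    have h4 : (((J.biUnion ExF ∪ Sm : Finset ℕ).card : ℕ) : ℝ) ≤
        ∑ j ∈ J, ((ExF j).card : ℝ) + Sm.card := by exact_mod_cast h3
    have h5 : ∑ j ∈ J, ((ExF j).card : ℝ) ≤ J.card * (X * (48 * Real.exp (-(3 * s / 40)))) := by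
      have := Finset.sum_le_card_nsmul J (fun j => ((ExF j).card : ℝ)) _ hExc
      rwa [nsmul_eq_mul] at this
    have h6 : (J.card : ℝ) * (X * (48 * Real.exp (-(3 * s / 40)))) ≤
        (C * s + 1) * (X * (48 * Real.exp (-(3 * s / 40)))) := by
      apply mul_le_mul_of_nonneg_right hJc (by positivity)
    linarith
  have h3 : (C * s + 1) * (X * (48 * Real.exp (-(3 * s / 40)))) + X * Real.exp (6 - 5 * s / 2) ≤
      X * Real.exp (-(s / 20)) := by
    calc (C * s + 1) * (X * (48 * Real.exp (-(3 * s / 40)))) + X * Real.exp (6 - 5 * s / 2)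
        = X * ((C * s + 1) * (48 * Real.exp (-(3 * s / 40))) + Real.exp (6 - 5 * s / 2)) := by ring
      _ ≤ X * Real.exp (-(s / 20)) := mul_le_mul_of_nonneg_left hmain hX0.le
  have h4 : ((({a : ℕ | 2 ≤ a ∧ a ≤ X ∧ ¬ ∀ N : ℕ, Real.log X ^ 3 ≤ Real.log N →
        Real.log N ≤ Real.exp (s / 20) →
        (N : ℝ) ^ (1 / 2 - e : ℝ) ≤ goodCount a N} : Set ℕ).ncard : ℕ) : ℝ) ≤
      ((J.biUnion ExF ∪ Sm : Finset ℕ).card : ℕ) := by exact_mod_cast h1
  exact le_trans h4 (le_trans h2 h3)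

/-- Almost all bases. -/
lemma almost_all (e : ℝ) (he : 0 < e) :
    ∃ X₀ : ℕ, ∀ X : ℕ, X₀ ≤ X →
    ((({a : ℕ | 2 ≤ a ∧ a ≤ X ∧ ¬ ∀ N : ℕ, Real.log X ^ 3 ≤ Real.log N →
        Real.log N ≤ Real.exp (Real.sqrt (Real.log X) / 20) →
        (N : ℝ) ^ (1 / 2 - e : ℝ) ≤ goodCount a N} : Set ℕ).ncard : ℕ) : ℝ) ≤
      X * Real.exp (-(Real.sqrt (Real.log X) / 20)) := by
  obtain ⟨X₀, hX₀⟩ := almost_all_small (min e (1 / 4)) (lt_min he (by norm_num))
    (min_le_right _ _)
  refine ⟨max X₀ 2, fun X hX => ?_⟩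
  have h1 := hX₀ X (le_trans (le_max_left _ _) hX)
  refine le_trans ?_ h1
  have hX2 : 2 ≤ X := le_trans (le_max_right _ _) hX
  have hlX : 0 < Real.log X := Real.log_pos (by exact_mod_cast (by omega : 1 < X))
  have h2 := Set.ncard_le_ncard (s := {a : ℕ | 2 ≤ a ∧ a ≤ X ∧
      ¬ ∀ N : ℕ, Real.log X ^ 3 ≤ Real.log N →
        Real.log N ≤ Real.exp (Real.sqrt (Real.log X) / 20) →
        (N : ℝ) ^ (1 / 2 - e : ℝ) ≤ goodCount a N})
    (t := {a : ℕ | 2 ≤ a ∧ a ≤ X ∧ ¬ ∀ N : ℕ, Real.log X ^ 3 ≤ Real.log N →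
        Real.log N ≤ Real.exp (Real.sqrt (Real.log X) / 20) →
        (N : ℝ) ^ (1 / 2 - min e (1 / 4) : ℝ) ≤ goodCount a N}) (by
      intro a ha
      refine ⟨ha.1, ha.2.1, fun hcon => ha.2.2 ?_⟩
      intro N hN1 hN2
      refine le_trans ?_ (hcon N hN1 hN2)
      have hN : (1 : ℝ) ≤ N := by
        rcases Nat.eq_zero_or_pos N with h | h
        · subst h
          simp at hN1
          have : 0 < Real.log X ^ 3 := by positivity
          linarith
        · exact_mod_cast h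
      apply Real.rpow_le_rpow_of_exponent_le hN
      have := min_le_left e (1 / 4)
      linarith) ((Set.finite_Iic X).subset (fun a ha => ha.2.1))
  exact_mod_cast h2

theorem result :
    (∀ X z N : ℕ, 10 ≤ X → 1 ≤ z → 4 * Real.log X ^ 2 ≤ Real.log N →
      ((({a : ℕ | 2 ≤ a ∧ a ≤ X ∧ (∃ l : ℕ, l.Prime ∧ z ≤ l ∧ l ∣ a) ∧
        (goodCount a N : ℝ) < Real.sqrt N / (8 * Real.log N)} : Set ℕ).ncard : ℕ) : ℝ) ≤
        24 * Real.log N * (X / Real.sqrt z)) ∧
    (∀ e : ℝ, 0 < e → ∃ X₀ : ℕ, ∀ X : ℕ, X₀ ≤ X →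
      ((({a : ℕ | 2 ≤ a ∧ a ≤ X ∧ ¬ ∀ N : ℕ, Real.log X ^ 3 ≤ Real.log N →
          Real.log N ≤ Real.exp (Real.sqrt (Real.log X) / 20) →
          (N : ℝ) ^ (1 / 2 - e : ℝ) ≤ goodCount a N} : Set ℕ).ncard : ℕ) : ℝ) ≤
        X * Real.exp (-(Real.sqrt (Real.log X) / 20))) :=
  ⟨one_scale, almost_all⟩

end Pool.Agent.Results.MP_222653_nt.AlmostAllBases
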